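import Pool.Agent.Results.MP_f50651_co.PolynomialGrowth

/-!
# Graphs of maximum degree `Δ ≥ 5` with polynomially small crossing angular resolution

For every `Δ ≥ 5` the crossing angular resolution of almost all unions of `Δ` perfect matchings
between two sets with `m` elements is less than `m ^ (-(1/2 - 2/Δ)) * exp (26 √(log m))`.
-/

set_option autoImplicit false

open Filter

namespace Pool.Agent.Results.MP_3b066f_co.PolynomiallySmallAngles

open Pool.Agent.Results.MP_f50651_co.PolynomialGrowth (Plane IsDrawing Cross un blk blk_disjoint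
  blk_injective un_regular exponent sqrt_log_tendsto)

/-- The smaller of the two angles formed by lines with the directions `a` and `b`. -/
noncomputable def crossingAngle (a b : Plane) : ℝ :=
  min (InnerProductGeometry.angle a b) (Real.pi - InnerProductGeometry.angle a b)

/-- The crossing angles of the straight-line drawing `p` of `G`, at all crossings of two edges. -/
def crossingAngles {V : Type} (G : SimpleGraph V) (p : V → Plane) : Set ℝ :=
  {θ | ∃ u v x y : V, G.Adj u v ∧ G.Adj x y ∧ s(u, v) ≠ s(x, y) ∧ Cross p u v x y ∧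
    θ = crossingAngle (p v - p u) (p y - p x)}

/-- The crossing angular resolution of a drawing: the least crossing angle, `2π` if there is no
crossing (all crossing angles are at most `π / 2`). -/
noncomputable def carDrawing {V : Type} (G : SimpleGraph V) (p : V → Plane) : ℝ :=
  sInf (insert (2 * Real.pi) (crossingAngles G p))

/-- The crossing angular resolution of a graph: the supremum over all straight-line drawings. -/
noncomputable def car {V : Type} (G : SimpleGraph V) : ℝ :=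
  sSup {t | ∃ p : V → Plane, IsDrawing G p ∧ t = carDrawing G p}

theorem crossingAngle_nonneg (a b : Plane) : 0 ≤ crossingAngle a b :=
  le_min (InnerProductGeometry.angle_nonneg _ _)
    (by linarith [InnerProductGeometry.angle_le_pi a b])

theorem bddBelow_angles {V : Type} (G : SimpleGraph V) (p : V → Plane) :
    BddBelow (insert (2 * Real.pi) (crossingAngles G p)) := by
  refine ⟨0, ?_⟩
  rintro t (rfl | ⟨u, v, x, y, _, _, _, _, rfl⟩)
  · exact Real.two_pi_pos.le
  · exact crossingAngle_nonneg _ _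

theorem carDrawing_le {V : Type} (G : SimpleGraph V) (p : V → Plane) :
    carDrawing G p ≤ 2 * Real.pi :=
  csInf_le (bddBelow_angles G p) (Set.mem_insert _ _)

/-- A graph with crossing angular resolution at least `β > 0` has a drawing all of whose crossing
angles are at least `β / 2`. -/
theorem exists_drawing {V : Type} [Finite V] (G : SimpleGraph V) {β : ℝ} (hβ : 0 < β)
    (h : β ≤ car G) : ∃ p : V → Plane, IsDrawing G p ∧ β / 2 ≤ carDrawing G p := by
  have hne : {t | ∃ p : V → Plane, IsDrawing G p ∧ t = carDrawing G p}.Nonempty := by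
    obtain ⟨k, p, hp, _⟩ :=
      Pool.Agent.Results.MP_f50651_co.PolynomialGrowth.exists_drawableWith G
    exact ⟨_, p, hp, rfl⟩
  have hlt : β / 2 < sSup {t | ∃ p : V → Plane, IsDrawing G p ∧ t = carDrawing G p} :=
    lt_of_lt_of_le (by linarith) h
  obtain ⟨t, ⟨p, hp, rfl⟩, ht⟩ := exists_lt_of_lt_csSup hne hlt
  exact ⟨p, hp, ht.le⟩

/-- Twice the direction of a vector. -/
noncomputable def dbl (a : Plane) : ℝ := Complex.arg ((⟨a 0, a 1⟩ : ℂ) ^ 2)

theorem cos_dbl {a b : Plane} (ha : a ≠ 0) (hb : b ≠ 0) :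
    Real.cos (dbl a - dbl b) = Real.cos (2 * InnerProductGeometry.angle a b) := by
  have na : ‖a‖ ^ 2 = a 0 ^ 2 + a 1 ^ 2 := by
    rw [EuclideanSpace.norm_sq_eq]
    simp [Fin.sum_univ_two]
  have nb : ‖b‖ ^ 2 = b 0 ^ 2 + b 1 ^ 2 := by
    rw [EuclideanSpace.norm_sq_eq]
    simp [Fin.sum_univ_two]
  have hin : inner ℝ a b = a 0 * b 0 + a 1 * b 1 := by
    simp [PiLp.inner_apply, Fin.sum_univ_two, mul_comm]
  have pa : 0 < ‖a‖ := norm_pos_iff.mpr ha
  have pb : 0 < ‖b‖ := norm_pos_iff.mpr hb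
  have hz : ∀ c : Plane, ‖(⟨c 0, c 1⟩ : ℂ)‖ ^ 2 = c 0 ^ 2 + c 1 ^ 2 := by
    intro c
    rw [← Complex.normSq_eq_norm_sq, Complex.normSq_mk]
    ring
  have hz2 : ∀ c : Plane, c ≠ 0 → (⟨c 0, c 1⟩ : ℂ) ^ 2 ≠ 0 := by
    intro c hc h0
    apply hc
    have h1 : (⟨c 0, c 1⟩ : ℂ) = 0 := by simpa using h0
    have h2 := congrArg Complex.re h1
    have h3 := congrArg Complex.im h1
    simp only [Complex.zero_re, Complex.zero_im] at h2 h3
    ext i
    fin_cases i
    · simpa using h2
    · simpa using h3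
  have hcos : ∀ c : Plane, c ≠ 0 → Real.cos (dbl c) = (c 0 ^ 2 - c 1 ^ 2) / (c 0 ^ 2 + c 1 ^ 2) := by
    intro c hc
    unfold dbl
    rw [Complex.cos_arg (hz2 c hc), norm_pow, hz c]
    congr 1
    simp [pow_two, Complex.mul_re]
  have hsin : ∀ c : Plane, c ≠ 0 → Real.sin (dbl c) = (2 * c 0 * c 1) / (c 0 ^ 2 + c 1 ^ 2) := by
    intro c hc
    unfold dbl
    rw [Complex.sin_arg, norm_pow, hz c]
    congr 1
    simp [pow_two, Complex.mul_im]
    ring
  rw [Real.cos_sub, hcos a ha, hcos b hb, hsin a ha, hsin b hb, Real.cos_two_mul,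
    InnerProductGeometry.cos_angle, hin, div_pow, mul_pow, na, nb]
  have ea : a 0 ^ 2 + a 1 ^ 2 ≠ 0 := by rw [← na]; positivity
  have eb : b 0 ^ 2 + b 1 ^ 2 ≠ 0 := by rw [← nb]; positivity
  field_simp
  ring

/-- Vectors whose doubled directions differ by less than `2 α` form an angle less than `α`. -/
theorem angle_lt {a b : Plane} (ha : a ≠ 0) (hb : b ≠ 0) {α : ℝ} (hα : α ≤ Real.pi / 2)
    (h : |dbl a - dbl b| < 2 * α) : crossingAngle a b < α := by
  by_contra hcon
  push Not at hcon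
  have h1 : α ≤ InnerProductGeometry.angle a b := hcon.trans (min_le_left _ _)
  have h2 : α ≤ Real.pi - InnerProductGeometry.angle a b := hcon.trans (min_le_right _ _)
  have h3 : Real.cos (2 * α) < Real.cos (dbl a - dbl b) := by
    rw [← Real.cos_abs (dbl a - dbl b)]
    exact Real.cos_lt_cos_of_nonneg_of_le_pi (abs_nonneg _) (by linarith) h
  rw [cos_dbl ha hb] at h3
  have hα0 : 0 ≤ α := by linarith [abs_nonneg (dbl a - dbl b)]
  have h4 : Real.cos (2 * InnerProductGeometry.angle a b) ≤ Real.cos (2 * α) := by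
    rcases le_total (InnerProductGeometry.angle a b) (Real.pi / 2) with h5 | h5
    · exact Real.cos_le_cos_of_nonneg_of_le_pi (by linarith) (by linarith) (by linarith)
    · rw [← Real.cos_two_pi_sub (2 * InnerProductGeometry.angle a b)]
      exact Real.cos_le_cos_of_nonneg_of_le_pi (by linarith) (by linarith) (by linarith)
  linarith

/-- The class of a direction. -/
noncomputable def cls (k : ℕ) (hk : 0 < k) (a : Plane) : Fin k :=
  ⟨min ⌊(dbl a + Real.pi) * k / (2 * Real.pi)⌋₊ (k - 1), by omega⟩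

theorem cls_close {k : ℕ} (hk : 0 < k) {a b : Plane} (h : cls k hk a = cls k hk b) :
    |dbl a - dbl b| ≤ 2 * Real.pi / k := by
  have hkR : (0:ℝ) < k := by exact_mod_cast hk
  have hpi := Real.pi_pos
  have key : ∀ c : Plane, ((cls k hk c : ℕ) : ℝ) ≤ (dbl c + Real.pi) * k / (2 * Real.pi) ∧
      (dbl c + Real.pi) * k / (2 * Real.pi) ≤ ((cls k hk c : ℕ) : ℝ) + 1 := by
    intro c
    have h1 : -Real.pi < dbl c := Complex.neg_pi_lt_arg _
    have h2 : dbl c ≤ Real.pi := Complex.arg_le_pi _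
    have h0 : 0 ≤ (dbl c + Real.pi) * k / (2 * Real.pi) := by
      apply div_nonneg
      · exact mul_nonneg (by linarith) hkR.le
      · linarith
    have h3 : (dbl c + Real.pi) * k / (2 * Real.pi) ≤ k := by
      rw [div_le_iff₀ (by linarith)]
      nlinarith
    constructor
    · have h4 : ((cls k hk c : ℕ) : ℝ) ≤ (⌊(dbl c + Real.pi) * k / (2 * Real.pi)⌋₊ : ℝ) := by
        have : (cls k hk c : ℕ) ≤ ⌊(dbl c + Real.pi) * k / (2 * Real.pi)⌋₊ := min_le_left _ _
        exact_mod_cast this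
      exact h4.trans (Nat.floor_le h0)
    · rcases le_total ⌊(dbl c + Real.pi) * k / (2 * Real.pi)⌋₊ (k - 1) with h5 | h5
      · have h6 : (cls k hk c : ℕ) = ⌊(dbl c + Real.pi) * k / (2 * Real.pi)⌋₊ := min_eq_left h5
        rw [h6]
        exact (Nat.lt_floor_add_one _).le
      · have h6 : (cls k hk c : ℕ) = k - 1 := min_eq_right h5
        rw [h6]
        have h7 : ((k - 1 : ℕ) : ℝ) + 1 = k := by
          have : k - 1 + 1 = k := by omega
          exact_mod_cast this
        rw [h7]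
        exact h3
  have ka := key a
  have kb := key b
  rw [h] at ka
  have h8 : |(dbl a + Real.pi) * k / (2 * Real.pi) - (dbl b + Real.pi) * k / (2 * Real.pi)| ≤ 1 := by
    rw [abs_le]
    constructor <;> linarith [ka.1, ka.2, kb.1, kb.2]
  have h9 : (dbl a + Real.pi) * k / (2 * Real.pi) - (dbl b + Real.pi) * k / (2 * Real.pi) =
      (dbl a - dbl b) * (k / (2 * Real.pi)) := by ring
  rw [h9, abs_mul, abs_of_pos (by positivity : 0 < (k:ℝ) / (2 * Real.pi))] at h8
  rw [le_div_iff₀ hkR]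
  have h10 : |dbl a - dbl b| * (k / (2 * Real.pi)) = |dbl a - dbl b| * k / (2 * Real.pi) := by ring
  rw [h10, div_le_one (by linarith)] at h8
  exact h8

/-- A drawing with large crossing angles gives a drawing with few colours in the sense of the
library. -/
theorem draw_of_car {m D k : ℕ} (hk : 0 < k) (π : Fin D → Equiv.Perm (Fin m)) {α : ℝ}
    (hα : α ≤ Real.pi / 2) (hkα : Real.pi / α < k) (hα0 : 0 < α)
    {p : Fin m ⊕ Fin m → Plane} (hp : IsDrawing (un π) p) (hc : α ≤ carDrawing (un π) p) :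
    ∃ (X Y : Pool.Agent.Y311.GT.VV m → ℝ) (c : Fin D → Fin m → Fin k),
      Pool.Agent.Y311.GT.Draw π X Y c := by
  obtain ⟨t, ht⟩ := Pool.Agent.Helper448.Plane.exists_shear p hp.injective
  have hadj : ∀ j a, (un π).Adj (Sum.inl a) (Sum.inr (π j a)) := fun j a => ⟨j, rfl⟩
  refine ⟨fun v => p v 0 + t * p v 1, fun v => p v 1,
    fun j a => cls k hk (p (Sum.inr (π j a)) - p (Sum.inl a)), ht, ?_, ?_⟩
  · intro j a v h1 h2 hon
    apply hp.avoid _ _ v (hadj j a) h1 h2
    obtain ⟨l, hl, h3, h4⟩ := hon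
    simp only at h3 h4
    refine ⟨1 - l, l, by linarith [hl.2], hl.1, by ring, ?_⟩
    ext i
    fin_cases i
    · simp only [Fin.zero_eta, Fin.isValue, PiLp.add_apply, PiLp.smul_apply, smul_eq_mul]
      rw [← h4] at h3
      linarith
    · simp only [Fin.mk_one, Fin.isValue, PiLp.add_apply, PiLp.smul_apply, smul_eq_mul]
      exact h4
  · intro j a a' haa hcc hmeet
    obtain ⟨l, hl, m', hm', h3, h4⟩ := hmeet
    have hπne : π j a ≠ π j a' := fun h => haa ((π j).injective h)
    have hcross : Cross p (Sum.inl a) (Sum.inr (π j a)) (Sum.inl a') (Sum.inr (π j a')) := by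
      refine ⟨(1 - l) • p (Sum.inl a) + l • p (Sum.inr (π j a)),
        ⟨1 - l, l, by linarith [hl.2], hl.1, by ring, rfl⟩,
        ⟨1 - m', m', by linarith [hm'.2], hm'.1, by ring, ?_⟩, ?_⟩
      · ext i
        fin_cases i
        · simp only [Fin.zero_eta, Fin.isValue, PiLp.add_apply, PiLp.smul_apply, smul_eq_mul]
          have e : t * ((1 - l) * p (Sum.inl a) 1 + l * p (Sum.inr (π j a)) 1) =
            t * ((1 - m') * p (Sum.inl a') 1 + m' * p (Sum.inr (π j a')) 1) := by rw [h4]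
          linarith
        · simp only [Fin.mk_one, Fin.isValue, PiLp.add_apply, PiLp.smul_apply, smul_eq_mul]
          exact h4.symm
      · rintro ⟨w, h1 | h1, h2 | h2, _⟩
        · rw [h1] at h2; simp [haa] at h2
        · rw [h1] at h2; simp at h2
        · rw [h1] at h2; simp at h2
        · rw [h1] at h2; simp [hπne] at h2
    have hne : ∀ a, p (Sum.inr (π j a)) - p (Sum.inl a) ≠ 0 := by
      intro a h0
      rw [sub_eq_zero] at h0
      exact absurd (hp.injective h0) (by simp)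
    have h5 : carDrawing (un π) p ≤ crossingAngle (p (Sum.inr (π j a)) - p (Sum.inl a))
        (p (Sum.inr (π j a')) - p (Sum.inl a')) := by
      apply csInf_le (bddBelow_angles _ p)
      refine Or.inr ⟨_, _, _, _, hadj j a, hadj j a', ?_, hcross, rfl⟩
      simp [haa]
    have h6 := cls_close hk hcc
    have hkR : (0:ℝ) < k := by exact_mod_cast hk
    have h7 : 2 * Real.pi / k < 2 * α := by
      rw [div_lt_iff₀ hkR]
      rw [div_lt_iff₀ hα0] at hkα
      linarith
    have h8 := angle_lt (hne a) (hne a') hα (lt_of_le_of_lt h6 h7)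
    linarith

/-- The tuples whose union has large crossing angular resolution. -/
def bad (m Δ : ℕ) : Set (Fin Δ → Equiv.Perm (Fin m)) :=
  {π | (m : ℝ) ^ (-(1 / 2 - 2 / (Δ : ℝ))) * Real.exp (26 * √(Real.log m)) ≤ car (un π)}

theorem bad_le (Δ : ℕ) (hΔ : 5 ≤ Δ) : ∀ᶠ m : ℕ in atTop, ((bad m Δ).ncard : ℝ) ≤
    Real.exp (-(Δ * m * √(Real.log m))) * (m.factorial : ℝ) ^ Δ := by
  classical
  obtain ⟨he1, _⟩ := exponent hΔ
  filter_upwards [Pool.Agent.Y311.GT.eventually_BB Δ (by omega), eventually_gt_atTop 0,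
    sqrt_log_tendsto.eventually_ge_atTop 260] with m hm hm0 hs
  have hmR : (0:ℝ) < m := by exact_mod_cast hm0
  obtain ⟨F, hF⟩ : ∃ F : ℝ, F = (m : ℝ) ^ (1 / 2 - 2 / (Δ : ℝ)) *
    Real.exp (-(25 * √(Real.log m))) := ⟨_, rfl⟩
  have hF1 : 2 ≤ F := by
    have hlog : √(Real.log m) ^ 2 = Real.log m := by
      apply Real.sq_sqrt
      by_contra hneg
      push Not at hneg
      have : √(Real.log m) = 0 := Real.sqrt_eq_zero_of_nonpos hneg.le
      linarith
    have h1 : (m : ℝ) ^ (1 / 2 - 2 / (Δ : ℝ)) =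
        Real.exp (Real.log m * (1 / 2 - 2 / (Δ : ℝ))) := Real.rpow_def_of_pos hmR _
    rw [hF, h1, ← Real.exp_add]
    obtain ⟨s, hsdef⟩ : ∃ s, s = √(Real.log m) := ⟨_, rfl⟩
    rw [← hsdef] at hs hlog ⊢
    rw [← hlog]
    have h2 : s ^ 2 * (1 / 10) ≤ s ^ 2 * (1 / 2 - 2 / (Δ : ℝ)) :=
      mul_le_mul_of_nonneg_left he1 (sq_nonneg s)
    have h3 : 1 ≤ s ^ 2 * (1 / 2 - 2 / (Δ : ℝ)) + -(25 * s) := by nlinarith
    have h4 := Real.add_one_le_exp (s ^ 2 * (1 / 2 - 2 / (Δ : ℝ)) + -(25 * s))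
    linarith
  have hpi := Real.pi_pos
  -- the bound of the resolution
  obtain ⟨β, hβ⟩ : ∃ β : ℝ, β = (m : ℝ) ^ (-(1 / 2 - 2 / (Δ : ℝ))) *
    Real.exp (26 * √(Real.log m)) := ⟨_, rfl⟩
  have hβ0 : 0 < β := by rw [hβ]; positivity
  have hβF : β * F = Real.exp (√(Real.log m)) := by
    rw [hβ, hF]
    have h1 : (m : ℝ) ^ (-(1 / 2 - 2 / (Δ : ℝ))) * (m : ℝ) ^ (1 / 2 - 2 / (Δ : ℝ)) = 1 := by
      rw [← Real.rpow_add hmR]; simp
    have h2 : Real.exp (26 * √(Real.log m)) * Real.exp (-(25 * √(Real.log m))) =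
        Real.exp (√(Real.log m)) := by
      rw [← Real.exp_add]; congr 1; ring
    calc _ = ((m : ℝ) ^ (-(1 / 2 - 2 / (Δ : ℝ))) * (m : ℝ) ^ (1 / 2 - 2 / (Δ : ℝ))) *
          (Real.exp (26 * √(Real.log m)) * Real.exp (-(25 * √(Real.log m)))) := by ring
      _ = _ := by rw [h1, h2, one_mul]
  have hexp : 2 * Real.pi ≤ Real.exp (√(Real.log m)) := by
    have h1 := Real.add_one_le_exp (√(Real.log m))
    have h2 := Real.pi_lt_four
    linarith
  -- the angle used
  obtain ⟨α, hα⟩ : ∃ α : ℝ, α = min (β / 2) (Real.pi / 2) := ⟨_, rfl⟩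
  have hα0 : 0 < α := by rw [hα]; exact lt_min (by linarith) (by linarith)
  have hα1 : α ≤ Real.pi / 2 := by rw [hα]; exact min_le_right _ _
  have hαF : Real.pi / α ≤ 2 * F - 1 := by
    rw [div_le_iff₀ hα0]
    rcases min_choice (β / 2) (Real.pi / 2) with h | h
    · rw [hα, h]
      have h1 : F ≤ 2 * F - 1 := by linarith
      have h2 : F * (β / 2) ≤ (2 * F - 1) * (β / 2) := mul_le_mul_of_nonneg_right h1 (by linarith)
      have h3 : F * (β / 2) = Real.exp (√(Real.log m)) / 2 := by rw [← hβF]; ring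
      linarith
    · rw [hα, h]
      have h1 : (3:ℝ) ≤ 2 * F - 1 := by linarith
      have h2 : 3 * (Real.pi / 2) ≤ (2 * F - 1) * (Real.pi / 2) :=
        mul_le_mul_of_nonneg_right h1 (by linarith)
      linarith
  have hk0 : 0 < ⌊Real.pi / α⌋₊ + 1 := Nat.succ_pos _
  have hkα : Real.pi / α < ((⌊Real.pi / α⌋₊ + 1 : ℕ) : ℝ) := by
    push_cast
    exact Nat.lt_floor_add_one _
  have hkle : ((⌊Real.pi / α⌋₊ + 1 : ℕ) : ℝ) ≤ 2 * F := by
    push_cast
    have := Nat.floor_le (by positivity : 0 ≤ Real.pi / α)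
    linarith
  obtain ⟨M, N, hMN, hB⟩ := hm (⌊Real.pi / α⌋₊ + 1) hk0 (by rw [← hF]; exact hkle)
  have hcount := Pool.Agent.Y311.GT.count_sub (M := M) (N := N) (k := ⌊Real.pi / α⌋₊ + 1) (m := m)
    (D := Δ) hm0 (by omega) hMN (Set.toFinite (bad m Δ)).toFinset
    (by
      intro π hπ
      rw [Set.Finite.mem_toFinset] at hπ
      have hπ' : β ≤ car (un π) := by rw [hβ]; exact hπ
      obtain ⟨p, hp, hc⟩ := exists_drawing (un π) hβ0 hπ'
      refine draw_of_car hk0 π hα1 hkα hα0 hp (le_trans ?_ hc)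
      rw [hα]; exact min_le_left _ _)
  rw [← Set.ncard_eq_toFinset_card _ (Set.toFinite (bad m Δ))] at hcount
  refine le_trans ?_ hB
  exact_mod_cast hcount

/-- Some structured tuple has a union of small crossing angular resolution. -/
theorem exists_good (Δ : ℕ) (hΔ : 5 ≤ Δ) : ∀ᶠ p : ℕ in atTop,
    ∃ π : Fin Δ → Equiv.Perm (Fin (Δ * p)), (∀ a, Function.Injective (fun j => π j a)) ∧
      car (un π) < ((Δ * p : ℕ) : ℝ) ^ (-(1 / 2 - 2 / (Δ : ℝ))) *
        Real.exp (26 * √(Real.log ((Δ * p : ℕ) : ℝ))) := by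
  classical
  have : NeZero Δ := ⟨by omega⟩
  have ht : Tendsto (fun p : ℕ => Δ * p) atTop atTop :=
    tendsto_id.const_mul_atTop' (by omega)
  filter_upwards [ht.eventually (bad_le Δ hΔ), eventually_gt_atTop 0,
    ht.eventually (sqrt_log_tendsto.eventually_ge_atTop (Δ + 3))] with p hp hp0 hs
  by_contra hcon
  push Not at hcon
  obtain ⟨m, hm⟩ : ∃ m, m = Δ * p := ⟨_, rfl⟩
  have hsub : Set.range (fun (τ : Fin Δ → Fin Δ → Equiv.Perm (Fin p)) => blk τ) ⊆
      bad (Δ * p) Δ := by
    rintro _ ⟨τ, rfl⟩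
    exact hcon (blk τ) (blk_disjoint τ)
  have h1 : ((p.factorial) ^ Δ) ^ Δ ≤ (bad (Δ * p) Δ).ncard := by
    refine le_trans (le_of_eq ?_) (Set.ncard_le_ncard hsub (Set.toFinite _))
    rw [← Set.image_univ, Set.ncard_image_of_injective _ blk_injective, Set.ncard_univ,
      Nat.card_eq_fintype_card]
    simp [Fintype.card_perm]
  have h2 : (((p.factorial : ℝ) ^ Δ) ^ Δ) ≤
      Real.exp (-(Δ * ((Δ * p : ℕ) : ℝ) * √(Real.log ((Δ * p : ℕ) : ℝ)))) *
        ((Δ * p).factorial : ℝ) ^ Δ := by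
    refine le_trans ?_ hp
    exact_mod_cast h1
  rw [← hm] at h2 hs
  have hm0 : 0 < m := by rw [hm]; exact Nat.mul_pos (by omega) hp0
  have hmR : (0:ℝ) < m := by exact_mod_cast hm0
  have hpR : (0:ℝ) < p := by exact_mod_cast hp0
  have hΔR : (0:ℝ) < Δ := by
    have : 0 < Δ := by omega
    exact_mod_cast this
  have hpf : (0:ℝ) < p.factorial := by exact_mod_cast Nat.factorial_pos p
  have hmf : (0:ℝ) < m.factorial := by exact_mod_cast Nat.factorial_pos m
  have h3 := Real.log_le_log (by positivity) h2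
  rw [Real.log_mul (by positivity) (by positivity), Real.log_exp, Real.log_pow, Real.log_pow,
    Real.log_pow] at h3
  have hfac : (p:ℝ) * Real.log p - 2 * p ≤ Real.log (p.factorial : ℝ) := by
    have h1 := Pool.Agent.Helper448.Final.pow_self_le p
    have h2 : (p:ℝ) ^ p ≤ 4 ^ p * (p.factorial : ℝ) := by exact_mod_cast h1
    have h3 := Real.log_le_log (by positivity) h2
    rw [Real.log_mul (by positivity) (by positivity), Real.log_pow, Real.log_pow] at h3
    have h4 : Real.log 4 ≤ 2 := by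
      have : (4 : ℝ) = 2 ^ 2 := by norm_num
      rw [this, Real.log_pow]
      have := Real.log_two_lt_d9
      push_cast
      linarith
    have h5 : (p:ℝ) * Real.log 4 ≤ p * 2 := mul_le_mul_of_nonneg_left h4 hpR.le
    linarith
  have hfac2 : Real.log (m.factorial : ℝ) ≤ m * (Δ + Real.log p) := by
    have h4 : (m.factorial : ℝ) ≤ (m:ℝ) ^ m := by exact_mod_cast Nat.factorial_le_pow m
    have h5 := Real.log_le_log hmf h4
    rw [Real.log_pow] at h5
    have h6 : Real.log m = Real.log Δ + Real.log p := by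
      rw [hm]; push_cast
      exact Real.log_mul hΔR.ne' hpR.ne'
    have h7 : Real.log Δ ≤ Δ := by
      have := Real.log_le_sub_one_of_pos hΔR
      linarith
    rw [h6] at h5
    have h8 : (m:ℝ) * (Real.log Δ + Real.log p) ≤ m * (Δ + Real.log p) :=
      mul_le_mul_of_nonneg_left (by linarith) hmR.le
    linarith
  have hmp : (m:ℝ) = Δ * p := by rw [hm]; push_cast; ring
  have e1 : (Δ:ℝ) * (Δ * (p * Real.log p - 2 * p)) ≤ Δ * (Δ * Real.log (p.factorial : ℝ)) :=
    mul_le_mul_of_nonneg_left (mul_le_mul_of_nonneg_left hfac hΔR.le) hΔR.le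
  have e2 : (Δ:ℝ) * Real.log (m.factorial : ℝ) ≤ Δ * (m * (Δ + Real.log p)) :=
    mul_le_mul_of_nonneg_left hfac2 hΔR.le
  have e3 : (Δ:ℝ) * m * (Δ + 3) ≤ Δ * m * √(Real.log m) :=
    mul_le_mul_of_nonneg_left hs (by positivity)
  have e4 : (Δ:ℝ) * (Δ * (p * Real.log p - 2 * p)) = Δ * m * Real.log p - 2 * (Δ * m) := by
    rw [hmp]; ring
  have e5 : (Δ:ℝ) * (m * (Δ + Real.log p)) = Δ * m * Δ + Δ * m * Real.log p := by ring
  have e6 : (Δ:ℝ) * m * (Δ + 3) = Δ * m * Δ + 3 * (Δ * m) := by ring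
  have e7 : 0 < (Δ:ℝ) * m := by positivity
  rw [e4] at e1
  rw [e5] at e2
  rw [e6] at e3
  linarith

/-- Graphs which contain `G` have a smaller crossing angular resolution. -/
theorem car_anti {V W : Type} [Finite W] {G : SimpleGraph V} {G' : SimpleGraph W}
    (f : V ↪ W) (hf : ∀ u v, G.Adj u v → G'.Adj (f u) (f v)) : car G' ≤ car G := by
  have hne : {t | ∃ p : W → Plane, IsDrawing G' p ∧ t = carDrawing G' p}.Nonempty := by
    obtain ⟨k, p, hp, _⟩ :=
      Pool.Agent.Results.MP_f50651_co.PolynomialGrowth.exists_drawableWith G'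
    exact ⟨_, p, hp, rfl⟩
  apply csSup_le hne
  rintro _ ⟨p, hp, rfl⟩
  have hp' : IsDrawing G (fun v => p (f v)) := by
    refine ⟨hp.injective.comp f.injective, ?_⟩
    intro u v w huv hwu hwv
    exact hp.avoid _ _ _ (hf u v huv) (fun h => hwu (f.injective h)) (fun h => hwv (f.injective h))
  have h1 : carDrawing G (fun v => p (f v)) ≤ car G := by
    apply le_csSup
    · refine ⟨2 * Real.pi, ?_⟩
      rintro _ ⟨q, _, rfl⟩
      exact carDrawing_le G q
    · exact ⟨_, hp', rfl⟩
  refine le_trans ?_ h1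
  apply csInf_le_csInf (bddBelow_angles G' p) (Set.insert_nonempty _ _)
  rintro t (rfl | ⟨u, v, x, y, h2, h3, hne', ⟨z, hz1, hz2, hz3⟩, rfl⟩)
  · exact Set.mem_insert _ _
  · refine Or.inr ⟨f u, f v, f x, f y, hf u v h2, hf x y h3, ?_, ⟨z, hz1, hz2, ?_⟩, rfl⟩
    · intro h
      exact hne' (Sym2.map.injective f.injective h)
    · rintro ⟨w, hw1, hw2, hw3⟩
      apply hz3
      rcases hw1 with hw1 | hw1 <;> rcases hw2 with hw2 | hw2
      · exact ⟨u, Or.inl rfl, Or.inl (f.injective (hw1.symm.trans hw2)),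
          hw3.trans (congrArg p hw1)⟩
      · exact ⟨u, Or.inl rfl, Or.inr (f.injective (hw1.symm.trans hw2)),
          hw3.trans (congrArg p hw1)⟩
      · exact ⟨v, Or.inr rfl, Or.inl (f.injective (hw1.symm.trans hw2)),
          hw3.trans (congrArg p hw1)⟩
      · exact ⟨v, Or.inr rfl, Or.inr (f.injective (hw1.symm.trans hw2)),
          hw3.trans (congrArg p hw1)⟩

/-- **Graphs of maximum degree `Δ ≥ 5` with polynomially small crossing angular resolution.**
(1) For every `Δ ≥ 5` and all large `m` the proportion of the `Δ`-tuples of perfect matchings between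
two sets with `m` elements whose union has crossing angular resolution at least
`m ^ (-(1/2 - 2/Δ)) * exp (26 √(log m))` is at most `exp (- Δ m √(log m))`.
(2) For every `Δ ≥ 5` and all large `n` there is a graph with `n` vertices, all degrees at most `Δ`
and at most `n % (2 Δ)` vertices of degree different from `Δ` (so it is `Δ`-regular if `2 Δ` divides
`n`) whose crossing angular resolution is less than `n ^ (-(1/2 - 2/Δ)) * exp (27 √(log n))`.
(3) For every `Δ ≥ 5` there is no positive lower bound for the crossing angular resolution of the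
`Δ`-regular graphs. -/
theorem result :
    (∀ Δ : ℕ, 5 ≤ Δ → ∀ᶠ m : ℕ in atTop,
      (({π : Fin Δ → Equiv.Perm (Fin m) |
        (m : ℝ) ^ (-(1 / 2 - 2 / (Δ : ℝ))) * Real.exp (26 * √(Real.log m)) ≤
          car (un π)}).ncard : ℝ) ≤
        Real.exp (-(Δ * m * √(Real.log m))) * (m.factorial : ℝ) ^ Δ) ∧
    (∀ Δ : ℕ, 5 ≤ Δ → ∀ᶠ n : ℕ in atTop, ∃ G : SimpleGraph (Fin n),
      (∀ v, (G.neighborSet v).ncard ≤ Δ) ∧
      {v | (G.neighborSet v).ncard ≠ Δ}.ncard ≤ n % (2 * Δ) ∧
      car G < (n : ℝ) ^ (-(1 / 2 - 2 / (Δ : ℝ))) * Real.exp (27 * √(Real.log n))) ∧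
    ∀ Δ : ℕ, 5 ≤ Δ → ∀ c : ℝ, 0 < c → ∃ (n : ℕ) (G : SimpleGraph (Fin n)),
      0 < n ∧ (∀ v, (G.neighborSet v).ncard = Δ) ∧ car G < c := by
  classical
  have h2 : ∀ Δ : ℕ, 5 ≤ Δ → ∀ᶠ n : ℕ in atTop, ∃ G : SimpleGraph (Fin n),
      (∀ v, (G.neighborSet v).ncard ≤ Δ) ∧
      {v | (G.neighborSet v).ncard ≠ Δ}.ncard ≤ n % (2 * Δ) ∧
      car G < (n : ℝ) ^ (-(1 / 2 - 2 / (Δ : ℝ))) * Real.exp (27 * √(Real.log n)) := by
    intro Δ hΔ
    obtain ⟨he1, he2⟩ := exponent hΔ
    obtain ⟨p0, hp0⟩ := eventually_atTop.1 (exists_good Δ hΔ)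
    filter_upwards [eventually_ge_atTop (2 * Δ * (p0 + 1)),
      sqrt_log_tendsto.eventually_ge_atTop 1] with n hn hsn
    obtain ⟨p, hp⟩ : ∃ p, p = n / (2 * Δ) := ⟨_, rfl⟩
    have hpge : p0 + 1 ≤ p := by
      rw [hp, Nat.le_div_iff_mul_le (by omega)]
      rw [mul_comm]; exact hn
    obtain ⟨m, hm⟩ : ∃ m, m = Δ * p := ⟨_, rfl⟩
    have hex := hp0 p (by omega)
    rw [← hm] at hex
    obtain ⟨π, hdis, hπ⟩ := hex
    have hmod : 2 * m + n % (2 * Δ) = n := by
      have h1 := Nat.div_add_mod n (2 * Δ)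
      rw [← hp] at h1
      rw [hm]
      rw [← h1]
      have : (2 * Δ * p + n % (2 * Δ)) % (2 * Δ) = n % (2 * Δ) := by rw [h1]
      rw [this]
      ring
    have hm2 : 2 * m ≤ n := by omega
    let f : Fin m ⊕ Fin m ↪ Fin n :=
      ⟨Sum.elim (fun a => ⟨a.val, by have := a.2; omega⟩) (fun a => ⟨m + a.val, by
        have := a.2; omega⟩), by
        rintro (a | a) (b | b) h
        · have := congrArg Fin.val h
          simp only [Sum.elim_inl] at this
          exact congrArg Sum.inl (Fin.ext this)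
        · have := congrArg Fin.val h
          simp only [Sum.elim_inl, Sum.elim_inr] at this
          have := a.2
          omega
        · have := congrArg Fin.val h
          simp only [Sum.elim_inl, Sum.elim_inr] at this
          have := b.2
          omega
        · have := congrArg Fin.val h
          simp only [Sum.elim_inr] at this
          exact congrArg Sum.inr (Fin.ext (by omega))⟩
    have hin : ∀ w, (((un π).map f).neighborSet (f w)).ncard = Δ := by
      intro w
      have e : ((un π).map f).neighborSet (f w) = f '' ((un π).neighborSet w) := by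
        ext x
        constructor
        · intro hx
          rw [SimpleGraph.mem_neighborSet, SimpleGraph.map_adj] at hx
          obtain ⟨u, u', huu, h1, h2⟩ := hx
          have := f.injective h1
          subst this
          exact ⟨u', huu, h2⟩
        · rintro ⟨u', huu, rfl⟩
          rw [SimpleGraph.mem_neighborSet, SimpleGraph.map_adj]
          exact ⟨w, u', huu, rfl, rfl⟩
      rw [e, Set.ncard_image_of_injective _ f.injective]
      exact un_regular π hdis w
    have hout : ∀ v, (¬ ∃ w, f w = v) → ((un π).map f).neighborSet v = ∅ := by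
      intro v hv
      rw [Set.eq_empty_iff_forall_notMem]
      intro x hx
      rw [SimpleGraph.mem_neighborSet, SimpleGraph.map_adj] at hx
      obtain ⟨u, u', huu, h1, h2⟩ := hx
      exact hv ⟨u, h1⟩
    refine ⟨(un π).map f, ?_, ?_, ?_⟩
    · intro v
      by_cases hv : ∃ w, f w = v
      · obtain ⟨w, rfl⟩ := hv
        exact (hin w).le
      · rw [hout v hv, Set.ncard_empty]
        omega
    · have hsub : {v | (((un π).map f).neighborSet v).ncard ≠ Δ} ⊆ (Set.range f)ᶜ := by
        intro v hv hr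
        obtain ⟨w, rfl⟩ := hr
        exact hv (hin w)
      have h1 : (Set.range f).ncard = 2 * m := by
        rw [← Set.image_univ, Set.ncard_image_of_injective _ f.injective, Set.ncard_univ,
          Nat.card_eq_fintype_card]
        simp [two_mul]
      have h2 := Set.ncard_add_ncard_compl (Set.range f)
      rw [h1, Nat.card_eq_fintype_card, Fintype.card_fin] at h2
      have h3 := Set.ncard_le_ncard hsub (Set.toFinite _)
      omega
    · have h1 : car ((un π).map f) ≤ car (un π) := by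
        apply car_anti f
        intro u v huv
        rw [SimpleGraph.map_adj]
        exact ⟨u, v, huv, rfl, rfl⟩
      refine lt_of_le_of_lt h1 (lt_of_lt_of_le hπ ?_)
      have hm0 : 0 < m := by
        rw [hm]; exact Nat.mul_pos (by omega) (by omega)
      have hmR : (0:ℝ) < m := by exact_mod_cast hm0
      have hn4 : n ≤ 4 * m := by
        have h3 : n % (2 * Δ) < 2 * Δ := Nat.mod_lt _ (by omega)
        have h4 : Δ ≤ m := by
          rw [hm]; exact Nat.le_mul_of_pos_right _ (by omega)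
        omega
      have hn4R : (n:ℝ) ≤ 4 * m := by exact_mod_cast hn4
      have hnm : (m:ℝ) ≤ n := by
        have : m ≤ n := by omega
        exact_mod_cast this
      have hnR : (0:ℝ) < n := by linarith
      have he0 : 0 ≤ 1 / 2 - 2 / (Δ : ℝ) := by linarith
      have h3 : (n : ℝ) ^ (1 / 2 - 2 / (Δ : ℝ)) ≤ 2 * (m : ℝ) ^ (1 / 2 - 2 / (Δ : ℝ)) := by
        calc (n : ℝ) ^ (1 / 2 - 2 / (Δ : ℝ)) ≤ (4 * m : ℝ) ^ (1 / 2 - 2 / (Δ : ℝ)) :=
              Real.rpow_le_rpow hnR.le hn4R he0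
          _ = (4 : ℝ) ^ (1 / 2 - 2 / (Δ : ℝ)) * (m : ℝ) ^ (1 / 2 - 2 / (Δ : ℝ)) :=
              Real.mul_rpow (by norm_num) hmR.le
          _ ≤ 2 * (m : ℝ) ^ (1 / 2 - 2 / (Δ : ℝ)) := by
              apply mul_le_mul_of_nonneg_right _ (by positivity)
              calc (4 : ℝ) ^ (1 / 2 - 2 / (Δ : ℝ)) ≤ (4 : ℝ) ^ ((1:ℝ) / 2) :=
                    Real.rpow_le_rpow_of_exponent_le (by norm_num) he2
                _ = 2 := by
                    rw [← Real.sqrt_eq_rpow]
                    rw [show (4:ℝ) = 2 ^ 2 by norm_num]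
                    exact Real.sqrt_sq (by norm_num)
      have h4 : √(Real.log m) ≤ √(Real.log n) :=
        Real.sqrt_le_sqrt (Real.log_le_log hmR hnm)
      have h5 : (m : ℝ) ^ (-(1 / 2 - 2 / (Δ : ℝ))) ≤ 2 * (n : ℝ) ^ (-(1 / 2 - 2 / (Δ : ℝ))) := by
        have pm : 0 < (m : ℝ) ^ (1 / 2 - 2 / (Δ : ℝ)) := by positivity
        have pn : 0 < (n : ℝ) ^ (1 / 2 - 2 / (Δ : ℝ)) := by positivity
        rw [Real.rpow_neg hmR.le, Real.rpow_neg hnR.le, inv_eq_one_div, ← div_eq_mul_inv,
          div_le_div_iff₀ pm pn]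
        linarith
      have h6 : (2:ℝ) ≤ Real.exp (√(Real.log n)) := by
        have := Real.add_one_le_exp (√(Real.log n))
        linarith
      have h7 : 2 * Real.exp (26 * √(Real.log m)) ≤ Real.exp (27 * √(Real.log n)) := by
        calc 2 * Real.exp (26 * √(Real.log m)) ≤
              Real.exp (√(Real.log n)) * Real.exp (26 * √(Real.log n)) :=
              mul_le_mul h6 (Real.exp_le_exp.mpr (by linarith)) (Real.exp_pos _).le
                (Real.exp_pos _).le
          _ = Real.exp (27 * √(Real.log n)) := by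
              rw [← Real.exp_add]; congr 1; ring
      calc (m : ℝ) ^ (-(1 / 2 - 2 / (Δ : ℝ))) * Real.exp (26 * √(Real.log m))
          ≤ (2 * (n : ℝ) ^ (-(1 / 2 - 2 / (Δ : ℝ)))) * Real.exp (26 * √(Real.log m)) :=
            mul_le_mul_of_nonneg_right h5 (Real.exp_pos _).le
        _ = (n : ℝ) ^ (-(1 / 2 - 2 / (Δ : ℝ))) * (2 * Real.exp (26 * √(Real.log m))) := by ring
        _ ≤ (n : ℝ) ^ (-(1 / 2 - 2 / (Δ : ℝ))) * Real.exp (27 * √(Real.log n)) :=
            mul_le_mul_of_nonneg_left h7 (by positivity)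
  refine ⟨bad_le, h2, ?_⟩
  intro Δ hΔ c hc
  obtain ⟨he1, _⟩ := exponent hΔ
  -- the bound tends to zero
  have hlim : ∀ᶠ n : ℕ in atTop,
      (n : ℝ) ^ (-(1 / 2 - 2 / (Δ : ℝ))) * Real.exp (27 * √(Real.log n)) < c := by
    filter_upwards [eventually_gt_atTop 0, sqrt_log_tendsto.eventually_ge_atTop 280,
      sqrt_log_tendsto.eventually_gt_atTop (-Real.log c)] with n hn0 hs hc'
    have hnR : (0:ℝ) < n := by exact_mod_cast hn0
    have hlog : √(Real.log n) ^ 2 = Real.log n := by
      apply Real.sq_sqrt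
      by_contra hneg
      push Not at hneg
      have : √(Real.log n) = 0 := Real.sqrt_eq_zero_of_nonpos hneg.le
      linarith
    have h1 : (n : ℝ) ^ (-(1 / 2 - 2 / (Δ : ℝ))) =
        Real.exp (Real.log n * (-(1 / 2 - 2 / (Δ : ℝ)))) := Real.rpow_def_of_pos hnR _
    rw [h1, ← Real.exp_add, ← Real.lt_log_iff_exp_lt hc]
    obtain ⟨s, hsdef⟩ : ∃ s, s = √(Real.log n) := ⟨_, rfl⟩
    rw [← hsdef] at hs hlog hc' ⊢
    rw [← hlog]
    have h3 : s ^ 2 * (1 / 10) ≤ s ^ 2 * (1 / 2 - 2 / (Δ : ℝ)) :=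
      mul_le_mul_of_nonneg_left he1 (sq_nonneg s)
    nlinarith
  obtain ⟨n0, hn0⟩ := eventually_atTop.1 ((h2 Δ hΔ).and hlim)
  obtain ⟨⟨G, hG1, hG2, hG3⟩, h4⟩ := hn0 (2 * Δ * (n0 + 1)) (by nlinarith)
  refine ⟨_, G, Nat.mul_pos (by omega) (by omega), ?_, hG3.trans h4⟩
  rw [Nat.mul_mod_right, Nat.le_zero, Set.ncard_eq_zero (Set.toFinite _)] at hG2
  intro v
  by_contra hv
  have : v ∈ {v | (G.neighborSet v).ncard ≠ Δ} := hv
  rw [hG2] at this
  exact this

end Pool.Agent.Results.MP_3b066f_co.PolynomiallySmallAngles
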